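import Pool.Agent.Q35.VP.Fin
import Pool.Agent.Q14.VP.QP
import Pool.Agent.Q14.VP.LNS
import Pool.Agent.Q14.VP.UC

/-!
# One rational point suffices: assembly
-/

set_option autoImplicit false

namespace Pool.Agent.Q35.VP

open MvPolynomial Pool.Agent.Q35.ST Pool.Agent.Q35.HB AlgebraicGeometry CategoryTheory W560.HP

theorem vp_all {κ : Type} [Fintype κ] [DecidableEq κ] {n : κ → ℕ} {k : Type} [Field k] [CharZero k]
    {F : MvPolynomial (Pc n) k} (hF : MH Set.univ (fun _ => 2) F)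
    (hn : ∀ l, 2 ≤ n l) (hsm : Smth (map (algebraMap k (AlgebraicClosure k)) F))
    (X : Scheme.{0}) [IsIntegral X] (p : X ⟶ Spec (CommRingCat.of k)) [LocallyOfFiniteType p]
    (hX : BirTo F X p) :
    [∃ x : Pc n → k, Nz Set.univ x ∧ eval x F = 0,
      Pool.Agent.TH178.HI.DensePoints k X p, UnirationalScheme k X p].TFAE ∧
    ((∃ s : Spec (CommRingCat.of k) ⟶ X, s ≫ p = 𝟙 _ ∧
      ∀ q, IsRegularLocalRing (X.presheaf.stalk (s.base q))) →
      Pool.Agent.TH178.HI.DensePoints k X p ∧ UnirationalScheme k X p) ∧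
    ((∃ S : Finset k, IntermediateField.adjoin ℚ (S : Set k) = ⊤) →
      Pool.Agent.TH178.HI.DensePoints k X p → HilbertProperty k X p ∧
      ((∀ x : X, IsIntegrallyClosed (X.presheaf.stalk x)) → HilbertPropertyIso k X p)) :=
  vp_main Pool.Agent.Q14.VP.qp Pool.Agent.Q14.VP.uc Pool.Agent.Q14.VP.lns hF hn hsm X p hX

end Pool.Agent.Q35.VP
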