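import Pool.Agent.Q35.VP.Stm

/-!
# The bilinear forms of a polynomial of multidegree (2, ..., 2) in one of the factors
-/

set_option autoImplicit false
set_option linter.unusedSectionVars false

namespace Pool.Agent.Q35.VP

open MvPolynomial Pool.Agent.Q35.ST Pool.Agent.Q35.HB Pool.Agent.Q182.HB

section bil

variable {κ : Type} [Fintype κ] [DecidableEq κ] {n : κ → ℕ} {k : Type} [Field k] [CharZero k]

/-- the symmetric bilinear form of `F` in the factor `l` over the point `z` -/
noncomputable def bil (F : MvPolynomial (Pc n) k) (l : κ) (z : Pc n → k) :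
    (Fin (n l + 1) → k) →ₗ[k] (Fin (n l + 1) → k) →ₗ[k] k :=
  LinearMap.mk₂ k (fun u v => (2 : k)⁻¹ * ∑ a, u a * ∑ b, BB F z l a b * v b)
    (fun u u' v => by
      simp only [Pi.add_apply, add_mul, Finset.sum_add_distrib, mul_add])
    (fun c u v => by
      simp only [Pi.smul_apply, smul_eq_mul, Finset.mul_sum]
      refine Finset.sum_congr rfl fun a _ => Finset.sum_congr rfl fun b _ => ?_
      ring)
    (fun u v v' => by
      simp only [Pi.add_apply, mul_add, Finset.sum_add_distrib])
    (fun c u v => by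
      simp only [Pi.smul_apply, smul_eq_mul, Finset.mul_sum]
      refine Finset.sum_congr rfl fun a _ => Finset.sum_congr rfl fun b _ => ?_
      ring)

lemma bil_apply (F : MvPolynomial (Pc n) k) (l : κ) (z : Pc n → k) (u v : Fin (n l + 1) → k) :
    bil F l z u v = (2 : k)⁻¹ * ∑ a, u a * ∑ b, BB F z l a b * v b := rfl

lemma bil_symm (F : MvPolynomial (Pc n) k) (l : κ) (z : Pc n → k) (u v : Fin (n l + 1) → k) :
    bil F l z u v = bil F l z v u := by
  rw [bil_apply, bil_apply]
  congr 1
  simp only [Finset.mul_sum]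
  rw [Finset.sum_comm]
  refine Finset.sum_congr rfl fun a _ => Finset.sum_congr rfl fun b _ => ?_
  rw [BB_symm F z l b a]
  ring

lemma bil_self {F : MvPolynomial (Pc n) k} (hF : MH Set.univ (fun _ => 2) F) (l : κ)
    (z : Pc n → k) (u : Fin (n l + 1) → k) : bil F l z u u = eval (upd z l u) F := by
  rw [bil_apply, aeval_F hF, aeval_eq_eval]
  field_simp
  ring

lemma two_bil {F : MvPolynomial (Pc n) k} (hF : MH Set.univ (fun _ => 2) F) (l : κ)
    (z : Pc n → k) (u v : Fin (n l + 1) → k) :
    2 * bil F l z u v = ∑ a, v a * eval (upd z l u) (pderiv (⟨l, a⟩ : Pc n) F) := by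
  rw [bil_symm, bil_apply, ← mul_assoc, mul_inv_cancel₀ two_ne_zero, one_mul]
  refine Finset.sum_congr rfl fun a _ => ?_
  rw [← aeval_pd hF, aeval_eq_eval]

end bil

section disc

variable {κ : Type} [Fintype κ] [DecidableEq κ] {n : κ → ℕ} {k : Type} [Field k] [CharZero k]

/-- the discriminant in the factor `l` -/
noncomputable def dsc (F : MvPolynomial (Pc n) k) (l : κ) : MvPolynomial (Pc n) k :=
  (Matrix.of fun a b : Fin (n l + 1) =>
    pderiv (⟨l, a⟩ : Pc n) (pderiv (⟨l, b⟩ : Pc n) F)).det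

lemma aeval_dsc {Ω : Type} [Field Ω] [Algebra k Ω] (F : MvPolynomial (Pc n) k) (l : κ)
    (z : Pc n → Ω) : aeval z (dsc F l) = (Matrix.of (BB F z l)).det := by
  unfold dsc
  rw [AlgHom.map_det]
  rfl

lemma card_block (l : κ) :
    (Finset.univ.filter fun t : Pc n => t.1 ≠ l).card + (n l + 1) = Fintype.card (Pc n) := by
  have h1 : (Finset.univ.filter (fun t : Pc n => ¬ t.1 ≠ l)).card = n l + 1 := by
    have h2 : (Finset.univ.filter (fun t : Pc n => ¬ t.1 ≠ l)) =
        (Finset.univ : Finset (Fin (n l + 1))).map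
          ⟨fun i => (⟨l, i⟩ : Pc n), fun i j h => by simpa using h⟩ := by
      ext ⟨m, i⟩
      simp only [Finset.mem_filter, Finset.mem_univ, true_and, not_not, Finset.mem_map,
        Function.Embedding.coeFn_mk]
      constructor
      · rintro rfl
        exact ⟨i, rfl⟩
      · rintro ⟨j, hj⟩
        exact (congrArg Sigma.fst hj).symm
    rw [h2, Finset.card_map, Finset.card_univ, Fintype.card_fin]
  have h3 := Finset.card_filter_add_card_filter_not (s := (Finset.univ : Finset (Pc n)))
    (fun t => t.1 ≠ l)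
  rw [h1, Finset.card_univ] at h3
  exact h3

lemma dsc_ne {F : MvPolynomial (Pc n) k} (hF : MH Set.univ (fun _ => 2) F)
    (hsm : Smth (map (algebraMap k (AlgebraicClosure k)) F)) (l : κ) : dsc F l ≠ 0 := by
  classical
  intro h0
  let R := MvPolynomial (Pc n) k
  let Ω := AlgebraicClosure (FractionRing R)
  let ξ : Pc n → Ω := fun s => algebraMap R Ω (X s)
  have hinj : Function.Injective (algebraMap R Ω) := by
    rw [IsScalarTower.algebraMap_eq R (FractionRing R) Ω]
    exact (algebraMap (FractionRing R) Ω).injective.comp (IsFractionRing.injective R _)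
  have hξ : ∀ f : R, aeval ξ f = algebraMap R Ω f := by
    intro f
    have h1 : (aeval ξ : R →ₐ[k] Ω) = IsScalarTower.toAlgHom k R Ω := by
      apply MvPolynomial.algHom_ext
      intro s
      rw [aeval_X]
      rfl
    exact DFunLike.congr_fun h1 f
  have hind : AlgebraicIndependent k ξ := by
    rw [algebraicIndependent_iff]
    intro p hp
    rw [hξ] at hp
    exact (map_eq_zero_iff _ hinj).1 hp
  have hdet : (Matrix.of (BB F ξ l)).det = 0 := by
    rw [← aeval_dsc, h0, map_zero]
  obtain ⟨v, hv0, hv⟩ := Matrix.exists_mulVec_eq_zero_iff.2 hdet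
  have hrad := hRad κ n k Ω F hF (smth_ext hsm _) l ξ (fun m _ => ⟨0, hind.ne_zero _⟩)
    (Finset.univ.filter fun t : Pc n => t.1 ≠ l) (fun t ht => (Finset.mem_filter.1 ht).2)
    (hind.comp _ Subtype.val_injective) (LinearMap.ker (Matrix.of (BB F ξ l)).mulVecLin)
    (fun w hw a => by
      rw [aeval_pd hF]
      exact congrFun (LinearMap.mem_ker.1 hw) a)
  have hcb := card_block (n := n) l
  have hz : Module.finrank Ω (LinearMap.ker (Matrix.of (BB F ξ l)).mulVecLin) = 0 := by omega
  have hbot : LinearMap.ker (Matrix.of (BB F ξ l)).mulVecLin = ⊥ :=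
    Submodule.finrank_eq_zero.1 hz
  have hmem : v ∈ LinearMap.ker (Matrix.of (BB F ξ l)).mulVecLin := by
    rw [LinearMap.mem_ker]
    exact hv
  rw [hbot, Submodule.mem_bot] at hmem
  exact hv0 hmem

lemma BB_upd {Ω : Type} [Field Ω] [Algebra k Ω] {F : MvPolynomial (Pc n) k}
    (hF : MH Set.univ (fun _ => 2) F) (z : Pc n → Ω) (l : κ) (v : Fin (n l + 1) → Ω)
    (a b : Fin (n l + 1)) : BB F (upd z l v) l a b = BB F z l a b := by
  unfold BB
  refine aeval_upd_of_zero ((hF.pderiv (⟨l, b⟩ : Pc n)).pderiv (⟨l, a⟩ : Pc n)) ?_ z v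
  simp

/-- the discriminant is not divisible by `F` -/
lemma not_dvd_dsc {F : MvPolynomial (Pc n) k} (hF : MH Set.univ (fun _ => 2) F)
    (hsm : Smth (map (algebraMap k (AlgebraicClosure k)) F)) (l : κ) : ¬ F ∣ dsc F l := by
  classical
  intro hd
  obtain ⟨y, hy⟩ : ∃ y : Pc n → k, eval y (dsc F l) ≠ 0 := by
    by_contra hcon
    push Not at hcon
    exact dsc_ne hF hsm l (MvPolynomial.funext fun y => by rw [hcon y, map_zero])
  have h1 : eval (upd y l 0) (dsc F l) = eval y (dsc F l) := by
    rw [← aeval_eq_eval, ← aeval_eq_eval, aeval_dsc, aeval_dsc]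
    congr 2
    funext a b
    exact BB_upd hF y l 0 a b
  have h2 : eval (upd y l 0) F = 0 := by
    rw [← bil_self hF, map_zero]
  obtain ⟨g, hg⟩ := hd
  apply hy
  rw [← h1, hg, map_mul, h2, zero_mul]

lemma bil_nondeg {F : MvPolynomial (Pc n) k} (l : κ) {z : Pc n → k}
    (hz : eval z (dsc F l) ≠ 0) (r : Fin (n l + 1) → k) (hr : ∀ u, bil F l z r u = 0) : r = 0 := by
  classical
  by_contra h0
  apply hz
  rw [← aeval_eq_eval, aeval_dsc]
  refine Matrix.exists_mulVec_eq_zero_iff.1 ⟨r, h0, ?_⟩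
  funext a
  have h1 := hr (Pi.single a 1)
  rw [bil_symm, bil_apply] at h1
  have h2 : ∑ a', (Pi.single a (1 : k) : Fin (n l + 1) → k) a' * ∑ b, BB F z l a' b * r b =
      ∑ b, BB F z l a b * r b := by
    rw [Finset.sum_eq_single a]
    · rw [Pi.single_eq_same, one_mul]
    · intro b _ hb
      rw [Pi.single_eq_of_ne hb, zero_mul]
    · intro h
      exact absurd (Finset.mem_univ _) h
  rw [h2] at h1
  exact (mul_eq_zero.1 h1).resolve_left (inv_ne_zero two_ne_zero)

end disc

end Pool.Agent.Q35.VP
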