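import Pool.Agent.Q35.VP.Ind
import Pool.Agent.Y742.HC.Dense

/-!
# One rational point suffices
-/

set_option autoImplicit false
set_option linter.unusedSectionVars false

namespace Pool.Agent.Q35.VP

open MvPolynomial Pool.Agent.Q35.ST Pool.Agent.Q35.HB AlgebraicGeometry CategoryTheory W560.HP
open Cardinal

section

variable {κ : Type} [Fintype κ] [DecidableEq κ] {n : κ → ℕ} {k : Type} [Field k] [CharZero k]
  {F : MvPolynomial (Pc n) k}

/-- the rational points are dense if there is one -/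
theorem dense_any (hQP : S_QP) (hUC : S_UC) (hF : MH Set.univ (fun _ => 2) F)
    (hn : ∀ l, 2 ≤ n l) (hsm : Smth (map (algebraMap k (AlgebraicClosure k)) F))
    (hx : ∃ x : Pc n → k, Nz Set.univ x ∧ eval x F = 0) (g : MvPolynomial (Pc n) k)
    (hg : ¬ F ∣ g) : ∃ y : Pc n → k, eval y F = 0 ∧ eval y g ≠ 0 := by
  refine hUC κ n k F hF hn hsm ?_ hx g hg
  intro k₀ _ _ F₀ hc hF₀ hsm₀ hx₀ g₀ hg₀
  obtain ⟨x, h1, h2, h3⟩ := nonspecial hQP hc hF₀ hn hsm₀ hx₀
  exact dense_of_point hc hF₀ hn hsm₀ h1 h2 h3 hg₀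

lemma nonempty_of_crd {K : Type} [Field K] [Algebra k K] {y : Pc n → K} (hy : Crd F y)
    (hsm : Smth (map (algebraMap k (AlgebraicClosure k)) F)) : Nonempty κ := by
  by_contra hem
  have : IsEmpty κ := not_nonempty_iff.1 hem
  have h1 : F = C (coeff 0 F) := eq_C_of_isEmpty F
  have h2 : coeff 0 F = 0 := by
    have h3 := hy.zero
    rw [h1, aeval_C] at h3
    exact (map_eq_zero_iff _ (algebraMap k K).injective).1 h3
  have h3 : F = 0 := by rw [h1, h2, map_zero]
  obtain ⟨s, -⟩ := hsm (fun _ => 0) (fun l _ => (IsEmpty.false l).elim) (by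
    rw [h3, map_zero, map_zero])
  exact IsEmpty.false s.1

/-- coordinates of a point from a specialisation -/
lemma point_of_rel {K : Type} [Field K] [Algebra k K] {y : Pc n → K} (hy : Crd F y)
    {c : Pc n → k} (hc : ∀ P : MvPolynomial (Pc n) k, aeval y P = 0 → eval c P = 0) :
    ∃ x : Pc n → k, Nz Set.univ x ∧ eval x F = 0 := by
  refine ⟨c, fun l _ => ?_, hc F hy.zero⟩
  obtain ⟨b, hb⟩ := hy.one l
  refine ⟨b, fun h0 => ?_⟩
  have h1 := hc (X ⟨l, b⟩ - 1) (by rw [map_sub, aeval_X, map_one, hb, sub_self])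
  rw [map_sub, eval_X, map_one, h0, zero_sub] at h1
  exact neg_ne_zero.2 one_ne_zero h1

theorem vp_main (hQP : S_QP) (hUC : S_UC) (hLN : S_LNS) (hF : MH Set.univ (fun _ => 2) F)
    (hn : ∀ l, 2 ≤ n l) (hsm : Smth (map (algebraMap k (AlgebraicClosure k)) F))
    (X : Scheme.{0}) [IsIntegral X] (p : X ⟶ Spec (CommRingCat.of k)) [LocallyOfFiniteType p]
    (hX : BirTo F X p) :
    [∃ x : Pc n → k, Nz Set.univ x ∧ eval x F = 0,
      Pool.Agent.TH178.HI.DensePoints k X p, UnirationalScheme k X p].TFAE ∧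
    ((∃ s : Spec (CommRingCat.of k) ⟶ X, s ≫ p = 𝟙 _ ∧
      ∀ q, IsRegularLocalRing (X.presheaf.stalk (s.base q))) →
      Pool.Agent.TH178.HI.DensePoints k X p ∧ UnirationalScheme k X p) ∧
    ((∃ S : Finset k, IntermediateField.adjoin ℚ (S : Set k) = ⊤) →
      Pool.Agent.TH178.HI.DensePoints k X p → HilbertProperty k X p ∧
      ((∀ x : X, IsIntegrallyClosed (X.presheaf.stalk x)) → HilbertPropertyIso k X p)) := by
  classical
  have hX0 := hX
  obtain ⟨K, _, _, e, y, he, hy⟩ := hX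
  have hne : Nonempty κ := nonempty_of_crd hy hsm
  have h12 : (∃ x : Pc n → k, Nz Set.univ x ∧ eval x F = 0) →
      ∃ m : ℕ, Nonempty (K →ₐ[k] FractionRing (MvPolynomial (Fin m) k)) := by
    intro hx
    obtain ⟨-, m, ⟨φ⟩⟩ := cone_main hPl Pool.Agent.Q14.HB.ext Pool.Agent.Q225.HB.hen
      Pool.Agent.Q95.HB.lg Pool.Agent.Q224.HB.sc Pool.Agent.Q14.HB.clo hCon hDext
      Pool.Agent.Q129.HB.irr Pool.Agent.Q129.HB.gc Pool.Agent.Q225.HB.linp hF hn hsm
      (fun g hg => dense_any hQP hUC hF hn hsm hx g hg) (hy.gen hF)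
    exact ⟨m, ⟨φ.comp (IsScalarTower.toAlgHom k K (FractionRing (MvPolynomial κ K)))⟩⟩
  have h1D : (∃ x : Pc n → k, Nz Set.univ x ∧ eval x F = 0) →
      Pool.Agent.TH178.HI.DensePoints k X p := by
    intro hx
    obtain ⟨m, ⟨φ⟩⟩ := h12 hx
    exact Pool.Agent.Y742.HC.dense_of_uni X p e he φ
  have h1U : (∃ x : Pc n → k, Nz Set.univ x ∧ eval x F = 0) → UnirationalScheme k X p := by
    intro hx
    obtain ⟨m, ⟨φ⟩⟩ := h12 hx
    refine ⟨Fin m, inferInstance, (φ : K →+* FractionRing (MvPolynomial (Fin m) k)).comp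
      (e : X.functionField →+* K), fun a => ?_⟩
    change φ (e (toFF k X p a)) = _
    rw [he a, AlgHom.commutes]
  have hD1 : Pool.Agent.TH178.HI.DensePoints k X p →
      ∃ x : Pc n → k, Nz Set.univ x ∧ eval x F = 0 := by
    intro hd
    obtain ⟨a, ha⟩ := Pool.Agent.TH178.HI.exists_place k X p hd K e he y
    exact point_of_rel hy ha
  have hU1 : UnirationalScheme k X p → ∃ x : Pc n → k, Nz Set.univ x ∧ eval x F = 0 := by
    rintro ⟨ι, hι, φ, hφ⟩
    let ψ : K →ₐ[k] FractionRing (MvPolynomial ι k) :=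
      { φ.comp (e.symm : K →+* X.functionField) with
        commutes' := fun a => by
          change φ (e.symm (algebraMap k K a)) = _
          rw [← he a, RingEquiv.symm_apply_apply]
          exact hφ a }
    have hψ : ∀ P : MvPolynomial (Pc n) k, aeval (fun s => ψ (y s)) P = ψ (aeval y P) := by
      intro P
      exact (DFunLike.congr_fun (MvPolynomial.comp_aeval (f := y) ψ) P).symm
    obtain ⟨c, hc1, -⟩ := specialise (gen_zero (ι := ι) (k := k)) (fun g hg => by
      have hg0 : g ≠ 0 := fun h0 => hg (by rw [h0])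
      obtain ⟨z, hz⟩ : ∃ z : ι → k, eval z g ≠ 0 := by
        by_contra hcon
        push Not at hcon
        exact hg0 (MvPolynomial.funext (fun z => by rw [hcon z, map_zero]))
      exact ⟨z, map_zero _, hz⟩) (fun s : Pc n => ψ (y s)) 1 (by
        rw [map_one]
        exact one_ne_zero)
    exact point_of_rel hy (fun P hP => hc1 P (by rw [hψ, hP, map_zero]))
  refine ⟨?_, ?_, ?_⟩
  · tfae_have 1 → 2 := h1D
    tfae_have 2 → 1 := hD1
    tfae_have 1 → 3 := h1U
    tfae_have 3 → 1 := hU1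
    tfae_finish
  · rintro ⟨s, hs, hreg⟩
    have hx := hLN κ n k F _ hF X p hX0 s hs hreg
    exact ⟨h1D hx, h1U hx⟩
  · intro hk hd
    obtain ⟨h1, h2⟩ := scheme hk hF hn hsm X p hX0
    exact ⟨(h1.out 1 2).1 hd, fun hic => h2 hic hd⟩

end

end Pool.Agent.Q35.VP
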