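import Pool.Agent.Q35.VP.Step

/-!
# A rational point which is not special
-/

set_option autoImplicit false
set_option linter.unusedSectionVars false

namespace Pool.Agent.Q35.VP

open MvPolynomial Pool.Agent.Q35.ST Pool.Agent.Q35.HB Pool.Agent.Q182.HB Cardinal

section

variable {κ : Type} [Fintype κ] [DecidableEq κ] {n : κ → ℕ} {k : Type} [Field k] [CharZero k]
  {F : MvPolynomial (Pc n) k}

/-- a vector outside finitely many planes -/
lemma exists_vec {m : ℕ} (hm : 3 ≤ m) (a : Fin m → k) (P : Finset (Fin m → k)) :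
    ∃ v : Fin m → k, ∀ p, p = a ∨ p ∈ P → v ∉ Submodule.span k {a, p} := by
  classical
  have h1 : (⊤ : Subspace k (Fin m → k)) ∉
      (insert a P).image fun p => (Submodule.span k {a, p} : Subspace k (Fin m → k)) := by
    intro h
    obtain ⟨p, -, hp⟩ := Finset.mem_image.1 h
    have h2 : Module.finrank k (Submodule.span k ({a, p} : Set (Fin m → k))) ≤ 2 := by
      have h3 := finrank_span_finset_le_card (R := k) ({a, p} : Finset (Fin m → k))
      rw [Finset.coe_insert, Finset.coe_singleton] at h3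
      exact h3.trans Finset.card_le_two
    rw [hp, finrank_top, Module.finrank_fin_fun] at h2
    omega
  have h2 := Subspace.biUnion_ne_univ_of_top_notMem h1
  obtain ⟨v, hv⟩ := (Set.ne_univ_iff_exists_notMem _).1 h2
  refine ⟨v, fun p hp h => hv ?_⟩
  rw [Set.mem_iUnion₂]
  exact ⟨_, Finset.mem_image_of_mem _ (Finset.mem_insert.2 hp), h⟩

theorem step (hQP : S_QP) (hc : #k ≤ ℵ₀) (hF : MH Set.univ (fun _ => 2) F) (hn : ∀ l, 2 ≤ n l)
    (hsm : Smth (map (algebraMap k (AlgebraicClosure k)) F)) {x : Pc n → k} (hx : Nz Set.univ x)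
    (hxF : eval x F = 0) {S : Finset κ} (hS : SpecIn F S x) (hmax : ∀ R, SpecIn F R x → R ⊆ S)
    {l : κ} (hl : l ∈ S) :
    ∃ x' : Pc n → k, Nz Set.univ x' ∧ eval x' F = 0 ∧ ∀ R, SpecIn F R x' → R ⊆ S.erase l := by
  classical
  obtain ⟨m, hm⟩ := SpecIn.ne_univ hsm hx hxF hS
  set φ := algebraMap k (AlgebraicClosure k) with hφ
  set G := rst S x F with hG
  have hnz : Nz Set.univ (fun s => φ (x s)) := fun j _ => by
    obtain ⟨i, hi⟩ := hx j trivial
    exact ⟨i, fun h => hi (φ.injective (by rw [map_zero]; exact h))⟩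
  have hGF : MH Set.univ (fun _ => 2) G := hF.rst S x
  have hGn : ∀ j : {j // j ∉ S}, 2 ≤ nT S n j := fun j => hn j.1
  have hGsm : Smth (map (algebraMap k (AlgebraicClosure k)) G) := by
    rw [hG, map_rst]
    exact rst_smth hsm hnz (hS.map φ)
  have hGirr : Irreducible G := by
    have : Nonempty {j // j ∉ S} := ⟨⟨m, hm⟩⟩
    exact Pool.Agent.Q129.HB.irr _ _ _ G hGF hGn hGsm
  have hdense : ∀ g, ¬ G ∣ g → ∃ y, eval y G = 0 ∧ eval y g ≠ 0 := by
    intro g hg
    refine dense_of_point hc hGF hGn hGsm (x := fun s => x (em S s)) ?_ ?_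
      (rst_nonspec hS hmax) hg
    · intro j _
      exact hx j.1 trivial
    · rw [hG, eval_rst]
      have h1 : glue S x (fun s => x (em S s)) = x := by
        funext t
        by_cases ht : t.1 ∈ S
        · rw [glue_mem _ _ _ _ ht]
        · rw [glue_notMem _ _ _ _ ht]
          rfl
      rw [h1, hxF]
  -- the finite set of the special points
  obtain ⟨E, hE⟩ := spec_finite (G := F) sMIN sU hF (fun _ => by norm_num) hn hsm
  -- the new direction
  set a : Fin (n l + 1) → k := fun i => x ⟨l, i⟩ with ha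
  obtain ⟨v₀, hv₀⟩ := exists_vec (by have := hn l; omega) a
    (E.image fun e => fun i => e.2 ⟨l, i⟩)
  obtain ⟨c, hexp⟩ := expand hF hS hl v₀
  rw [← ha] at hexp
  set v := v₀ - c • a with hv
  have hvs : ∀ p, p = a ∨ p ∈ (E.image fun e => (fun i => e.2 ⟨l, i⟩ : Fin (n l + 1) → k)) →
      ∀ s t r : k, t ≠ 0 → s • a + t • v ≠ r • p := by
    intro p hp s t r ht h
    apply hv₀ p hp
    have h1 : v₀ = (t⁻¹ * r) • p + (c - t⁻¹ * s) • a := by
      have h2 : t • v = r • p - s • a := by rw [← h]; abel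
      have h3 : v = t⁻¹ • (r • p - s • a) := by rw [← h2, smul_smul, inv_mul_cancel₀ ht, one_smul]
      have h4 : v₀ = v + c • a := by rw [hv]; abel
      rw [h4, h3, smul_sub, smul_smul, smul_smul, sub_smul]
      abel
    rw [h1]
    refine Submodule.add_mem _ (Submodule.smul_mem _ _ (Submodule.subset_span (by simp)))
      (Submodule.smul_mem _ _ (Submodule.subset_span (by simp)))
  -- the general point
  set m' : {j // j ∉ S} := ⟨m, hm⟩ with hm'
  let E' : Finset ((j : {j // j ∉ S}) × (Fin (nT S n j + 1) → k)) :=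
    (E ×ˢ (Finset.univ : Finset {j // j ∉ S})).image fun e =>
      ⟨e.2, fun i => e.1.2 ⟨e.2.1, i⟩⟩
  obtain ⟨h, hh, hav⟩ := exists_avoid hGF hGirr hGn E'
  obtain ⟨y, hyG, hy⟩ := hdense (dsc G m' * h) (fun hd => by
    rcases hGirr.prime.dvd_or_dvd hd with h1 | h1
    · exact not_dvd_dsc hGF hGsm m' h1
    · exact hh h1)
  rw [map_mul] at hy
  have hy1 := left_ne_zero_of_mul hy
  obtain ⟨hyN, hyE⟩ := hav y (right_ne_zero_of_mul hy)
  set G' := rst S (upd x l v) F with hG'
  have hGF' : MH Set.univ (fun _ => 2) G' := hF.rst S _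
  -- the pencil of quadrics
  have hym : (fun i => y ⟨m', i⟩) ≠ (0 : Fin (nT S n m' + 1) → k) := by
    obtain ⟨i, hi⟩ := hyN m' trivial
    exact fun h0 => hi (congrFun h0 i)
  obtain ⟨Y, s, t, ht, hY0, hY1, hY2⟩ := hQP k (Fin (nT S n m' + 1) → k)
    (by rw [Module.finrank_fin_fun]; have := hn m; change 3 ≤ n m + 1; omega)
    (bil G m' y) (bil G' m' y) (bil_symm G m' y) (bil_symm G' m' y)
    (fun r hr => bil_nondeg m' hy1 r hr) (fun i => y ⟨m', i⟩) hym
    (by rw [bil_self hGF, Pool.Agent.Q35.ST.upd_self, hyG])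
    ((E.image fun e => (fun i => e.2 ⟨m, i⟩ : Fin (nT S n m' + 1) → k)).filter fun p => p ≠ 0)
    (by
      intro p hp
      rw [Finset.mem_filter, Finset.mem_image] at hp
      obtain ⟨⟨e, he, rfl⟩, hp0⟩ := hp
      exact hyE ⟨m', fun i => e.2 ⟨m, i⟩⟩ (Finset.mem_image.2 ⟨(e, m'),
        Finset.mem_product.2 ⟨he, Finset.mem_univ _⟩, rfl⟩) hp0)
  rw [bil_self hGF, bil_self hGF'] at hY1
  set y' := upd y m' Y with hy'
  set z := glue S (upd x l (s • a + t • v)) y' with hz
  have hzl : (fun i => z ⟨l, i⟩) = s • a + t • v := by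
    funext i
    rw [hz, glue_mem _ _ _ _ hl, Pool.Agent.Q35.ST.upd_same]
  have hzS : ∀ j ∈ S, j ≠ l → (fun i => z ⟨j, i⟩) = fun i => x ⟨j, i⟩ := by
    intro j hj hjl
    funext i
    rw [hz, glue_mem _ _ _ _ hj, Pool.Agent.Q35.ST.upd_ne _ _ _ _ hjl]
  have hzm : (fun i => z ⟨m, i⟩) = Y := by
    funext i
    rw [hz, glue_notMem _ _ _ _ hm, hy']
    exact Pool.Agent.Q35.ST.upd_same y m' Y i
  have hzT : ∀ (j : κ) (hj : j ∉ S), j ≠ m → (fun i => z ⟨j, i⟩) = fun i => y ⟨⟨j, hj⟩, i⟩ := by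
    intro j hj hjm
    funext i
    rw [hz, glue_notMem _ _ _ _ hj, hy']
    exact Pool.Agent.Q35.ST.upd_ne y m' Y ⟨⟨j, hj⟩, i⟩ (fun h0 => hjm (congrArg Subtype.val h0))
  have hzN : Nz Set.univ z := by
    intro j _
    by_contra hcon
    push Not at hcon
    have h0 : (fun i => z ⟨j, i⟩) = 0 := funext hcon
    by_cases hjl : j = l
    · subst hjl
      rw [hzl] at h0
      exact hvs a (Or.inl rfl) s t 0 ht (by rw [h0, zero_smul])
    · by_cases hjS : j ∈ S
      · rw [hzS j hjS hjl] at h0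
        obtain ⟨i, hi⟩ := hx j trivial
        exact hi (congrFun h0 i)
      · by_cases hjm : j = m
        · subst hjm
          rw [hzm] at h0
          exact hY0 h0
        · rw [hzT j hjS hjm] at h0
          obtain ⟨i, hi⟩ := hyN ⟨j, hjS⟩ trivial
          exact hi (congrFun h0 i)
  have hzF : eval z F = 0 := by
    rw [hz, hexp, ← hG, ← hY1]
    ring
  refine ⟨z, hzN, hzF, fun R hR j hj => ?_⟩
  obtain ⟨p, hp, hp1, -, hp2⟩ := hE R z hzN hzF hR
  obtain ⟨r, hr⟩ := hp2 j hj
  have hr' : (fun i => z ⟨j, i⟩) = r • (fun i => p ⟨j, i⟩) := funext hr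
  rw [Finset.mem_erase]
  by_cases hjl : j = l
  · exfalso
    subst hjl
    rw [hzl] at hr'
    exact hvs _ (Or.inr (Finset.mem_image.2 ⟨_, hp, rfl⟩)) s t r ht hr'
  refine ⟨hjl, ?_⟩
  by_contra hjS
  have hpj : (fun i => p ⟨j, i⟩) ≠ (0 : Fin (n j + 1) → k) := by
    obtain ⟨i, hi⟩ := hp1 j trivial
    exact fun h0 => hi (congrFun h0 i)
  by_cases hjm : j = m
  · subst hjm
    rw [hzm] at hr'
    exact hY2 _ (Finset.mem_filter.2 ⟨Finset.mem_image.2 ⟨_, hp, rfl⟩, hpj⟩) ⟨r, hr'⟩
  · rw [hzT j hjS hjm] at hr'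
    exact hyE ⟨⟨j, hjS⟩, fun i => p ⟨j, i⟩⟩ (Finset.mem_image.2 ⟨((R, p), ⟨j, hjS⟩),
      Finset.mem_product.2 ⟨hp, Finset.mem_univ _⟩, rfl⟩) hpj ⟨r, hr'⟩

/-- a smooth hypersurface of multidegree (2, ..., 2) with a rational point has a rational point
which is not special -/
theorem nonspecial (hQP : S_QP) (hc : #k ≤ ℵ₀) (hF : MH Set.univ (fun _ => 2) F)
    (hn : ∀ l, 2 ≤ n l) (hsm : Smth (map (algebraMap k (AlgebraicClosure k)) F))
    (hx : ∃ x : Pc n → k, Nz Set.univ x ∧ eval x F = 0) :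
    ∃ x : Pc n → k, Nz Set.univ x ∧ eval x F = 0 ∧ ∀ S, ¬ SpecIn F S x := by
  classical
  have key : ∀ (N : ℕ) (x : Pc n → k) (S : Finset κ), S.card ≤ N → Nz Set.univ x →
      eval x F = 0 → (∀ R, SpecIn F R x → R ⊆ S) →
      ∃ x : Pc n → k, Nz Set.univ x ∧ eval x F = 0 ∧ ∀ S, ¬ SpecIn F S x := by
    intro N
    induction N with
    | zero =>
      intro x S hS hx hxF hmax
      refine ⟨x, hx, hxF, fun R hR => ?_⟩
      obtain ⟨l, hl⟩ := hR.1
      have h1 := hmax R hR hl
      rw [Finset.card_eq_zero.1 (Nat.le_zero.1 hS)] at h1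
      exact Finset.notMem_empty _ h1
    | succ N ih =>
      intro x S hS hx hxF hmax
      -- the union of the special sets
      set U : Finset κ := Finset.univ.filter fun l => ∃ R, SpecIn F R x ∧ l ∈ R with hU
      have hUS : U ⊆ S := by
        intro l hl
        obtain ⟨R, hR, hlR⟩ := (Finset.mem_filter.1 hl).2
        exact hmax R hR hlR
      have hRU : ∀ R, SpecIn F R x → R ⊆ U := fun R hR l hl =>
        Finset.mem_filter.2 ⟨Finset.mem_univ _, R, hR, hl⟩
      by_cases hsp : ∃ R, SpecIn F R x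
      · have hUsp : SpecIn F U x := by
          obtain ⟨R₀, hR₀⟩ := hsp
          have h1 : ∀ s : Finset κ, s ⊆ U → ∃ R, SpecIn F R x ∧ s ⊆ R := by
            intro s
            induction s using Finset.induction_on with
            | empty => exact fun _ => ⟨R₀, hR₀, Finset.empty_subset _⟩
            | insert j s _ ih2 =>
              intro hs
              obtain ⟨R, hR, hsR⟩ := ih2 ((Finset.subset_insert _ _).trans hs)
              obtain ⟨R', hR', hjR'⟩ := (Finset.mem_filter.1 (hs (Finset.mem_insert_self _ _))).2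
              exact ⟨R ∪ R', SpecIn.union hR hR', Finset.insert_subset
                (Finset.mem_union_right _ hjR') (hsR.trans Finset.subset_union_left)⟩
          obtain ⟨R, hR, hUR⟩ := h1 U (Finset.Subset.refl _)
          rwa [Finset.Subset.antisymm hUR (hRU R hR)]
        obtain ⟨l, hl⟩ := hUsp.1
        obtain ⟨x', hx', hxF', hmax'⟩ := step hQP hc hF hn hsm hx hxF hUsp hRU hl
        refine ih x' (U.erase l) ?_ hx' hxF' hmax'
        rw [Finset.card_erase_of_mem hl]
        have := Finset.card_le_card hUS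
        omega
      · push Not at hsp
        exact ⟨x, hx, hxF, hsp⟩
  obtain ⟨x, hx, hxF⟩ := hx
  exact key _ x Finset.univ (le_refl _) hx hxF (fun R _ => Finset.subset_univ R)

end

end Pool.Agent.Q35.VP
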