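import Pool.Agent.Q35.VP.Bil
import Pool.Agent.Q35.ST.Res
import Pool.Agent.Q35.ST.Nat

/-!
# Points with fewer special sets
-/

set_option autoImplicit false
set_option linter.unusedSectionVars false

namespace Pool.Agent.Q35.VP

open MvPolynomial Pool.Agent.Q35.ST Pool.Agent.Q35.HB Pool.Agent.Q182.HB Cardinal

section avoid

variable {κ : Type} [Fintype κ] [DecidableEq κ] {n : κ → ℕ} {k : Type} [Field k] [CharZero k]

lemma two_le_totalDegree {F : MvPolynomial (Pc n) k} (hF : MH Set.univ (fun _ => 2) F)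
    (hirr : Irreducible F) : 2 ≤ F.totalDegree := by
  have hF0 : F ≠ 0 := hirr.ne_zero
  obtain ⟨m, hm⟩ : F.support.Nonempty := by
    rw [Finset.nonempty_iff_ne_empty, Ne, support_eq_empty]; exact hF0
  have h3 : m.sum (fun _ e => e) ≤ F.totalDegree := le_totalDegree hm
  by_cases hk : Nonempty κ
  · obtain ⟨l⟩ := hk
    have h4 : ∑ i, m ⟨l, i⟩ = 2 := hF m hm l (Set.mem_univ _)
    have h5 : ∑ i, m ⟨l, i⟩ ≤ m.sum (fun _ e => e) := by
      rw [Finsupp.sum_fintype _ _ (fun _ => rfl), Fintype.sum_sigma]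
      exact Finset.single_le_sum (f := fun l => ∑ i, m ⟨l, i⟩) (fun _ _ => Nat.zero_le _)
        (Finset.mem_univ l)
    omega
  · exfalso
    apply hirr.not_isUnit
    have : IsEmpty κ := not_nonempty_iff.1 hk
    have h6 : F = C (coeff 0 F) := eq_C_of_isEmpty F
    rw [h6]
    refine IsUnit.map C (isUnit_iff_ne_zero.2 (fun h => hF0 ?_))
    rw [h6, h, map_zero]

lemma not_dvd_linear {F : MvPolynomial (Pc n) k} (hF : MH Set.univ (fun _ => 2) F)
    (hirr : Irreducible F) {q : MvPolynomial (Pc n) k} (hq : q ≠ 0) (hq1 : q.totalDegree ≤ 1) :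
    ¬ F ∣ q := by
  rintro ⟨w, rfl⟩
  have hw0 : w ≠ 0 := by
    rintro rfl
    exact hq (mul_zero _)
  rw [totalDegree_mul_of_isDomain hirr.ne_zero hw0] at hq1
  have := two_le_totalDegree hF hirr
  omega

/-- a linear form which vanishes at a given point of a factor -/
lemma exists_lin (hn : ∀ l, 2 ≤ n l) (l : κ) (p : Fin (n l + 1) → k) (hp : p ≠ 0) :
    ∃ q : MvPolynomial (Pc n) k, q ≠ 0 ∧ q.totalDegree ≤ 1 ∧ ∀ y : Pc n → k,
      (∃ c : k, (fun i => y ⟨l, i⟩) = c • p) → eval y q = 0 := by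
  obtain ⟨i, hi⟩ : ∃ i, p i ≠ 0 := by
    by_contra hcon
    push Not at hcon
    exact hp (funext hcon)
  obtain ⟨j, hj⟩ : ∃ j : Fin (n l + 1), j ≠ i := by
    have : Nontrivial (Fin (n l + 1)) :=
      Fin.nontrivial_iff_two_le.2 (by have := hn l; omega)
    exact exists_ne i
  refine ⟨C (p i) * X ⟨l, j⟩ - C (p j) * X ⟨l, i⟩, ?_, ?_, ?_⟩
  · intro h0
    have h1 := congrArg (eval (fun s : Pc n => if s = ⟨l, j⟩ then (1 : k) else 0)) h0
    have hne : (⟨l, i⟩ : Pc n) ≠ ⟨l, j⟩ := by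
      intro h; apply hj; simpa using h.symm
    simp [hne] at h1
    exact hi h1
  · refine (totalDegree_sub _ _).trans (max_le ?_ ?_)
    · refine (totalDegree_mul _ _).trans ?_
      rw [totalDegree_C, totalDegree_X]
    · refine (totalDegree_mul _ _).trans ?_
      rw [totalDegree_C, totalDegree_X]
  · rintro y ⟨c, hc⟩
    have h1 : y ⟨l, i⟩ = c * p i := congrFun hc i
    have h2 : y ⟨l, j⟩ = c * p j := congrFun hc j
    simp only [map_sub, map_mul, eval_C, eval_X]
    rw [h1, h2]; ring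

/-- general points avoid finitely many points in the factors -/
lemma exists_avoid {F : MvPolynomial (Pc n) k} (hF : MH Set.univ (fun _ => 2) F)
    (hirr : Irreducible F) (hn : ∀ l, 2 ≤ n l)
    (E : Finset ((l : κ) × (Fin (n l + 1) → k))) :
    ∃ h : MvPolynomial (Pc n) k, ¬ F ∣ h ∧ ∀ y : Pc n → k, eval y h ≠ 0 → Nz Set.univ y ∧
      ∀ e ∈ E, e.2 ≠ 0 → ¬ ∃ c : k, (fun i => y ⟨e.1, i⟩) = c • e.2 := by
  classical
  have hex : ∀ e : (l : κ) × (Fin (n l + 1) → k), ∃ q : MvPolynomial (Pc n) k, q ≠ 0 ∧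
      q.totalDegree ≤ 1 ∧ (e.2 ≠ 0 → ∀ y : Pc n → k,
        (∃ c : k, (fun i => y ⟨e.1, i⟩) = c • e.2) → eval y q = 0) := by
    rintro ⟨l, p⟩
    by_cases hp : p = 0
    · exact ⟨1, one_ne_zero, by simp, fun h => absurd hp h⟩
    · obtain ⟨q, h1, h2, h3⟩ := exists_lin hn l p hp
      exact ⟨q, h1, h2, fun _ => h3⟩
  choose q hq0 hq1 hq2 using hex
  refine ⟨(∏ l, X (⟨l, 0⟩ : Pc n)) * ∏ e ∈ E, q e, ?_, ?_⟩
  · intro hd
    rcases hirr.prime.dvd_or_dvd hd with h | h
    · obtain ⟨l, -, hl⟩ := (Prime.dvd_finsetProd_iff hirr.prime _).1 h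
      exact not_dvd_linear hF hirr (X_ne_zero _) (by rw [totalDegree_X]) hl
    · obtain ⟨e, -, he⟩ := (Prime.dvd_finsetProd_iff hirr.prime _).1 h
      exact not_dvd_linear hF hirr (hq0 e) (hq1 e) he
  · intro y hy
    rw [map_mul] at hy
    have hy1 := left_ne_zero_of_mul hy
    have hy2 := right_ne_zero_of_mul hy
    rw [map_prod] at hy1 hy2
    refine ⟨fun l _ => ⟨0, ?_⟩, fun e he he0 hc => ?_⟩
    · have := Finset.prod_ne_zero_iff.1 hy1 l (Finset.mem_univ _)
      rwa [eval_X] at this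
    · exact Finset.prod_ne_zero_iff.1 hy2 e he (hq2 e he0 y hc)

end avoid

section step

variable {κ : Type} [Fintype κ] [DecidableEq κ] {n : κ → ℕ} {k : Type} [Field k] [CharZero k]
  {F : MvPolynomial (Pc n) k}

lemma SpecIn.union {S R : Finset κ} {x : Pc n → k} (hS : SpecIn F S x) (hR : SpecIn F R x) :
    SpecIn F (S ∪ R) x := by
  refine ⟨hS.1.mono Finset.subset_union_left, fun s hs => ?_⟩
  rcases Finset.mem_union.1 hs with h | h
  · obtain ⟨c, hc⟩ := hS.2 s h
    exact ⟨c, fun y hy => hc y fun t ht => hy t (Finset.mem_union_left _ ht)⟩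
  · obtain ⟨c, hc⟩ := hR.2 s h
    exact ⟨c, fun y hy => hc y fun t ht => hy t (Finset.mem_union_right _ ht)⟩

lemma SpecIn.ne_univ (hsm : Smth (map (algebraMap k (AlgebraicClosure k)) F)) {S : Finset κ}
    {x : Pc n → k} (hx : Nz Set.univ x) (hxF : eval x F = 0) (hS : SpecIn F S x) :
    ∃ m, m ∉ S := by
  by_contra hcon
  push Not at hcon
  set φ := algebraMap k (AlgebraicClosure k) with hφ
  have hev : ∀ g : MvPolynomial (Pc n) k, eval (fun t => φ (x t)) (map φ g) = φ (eval x g) := by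
    intro g
    rw [eval_map]
    exact (eval₂_comp φ x g).symm
  obtain ⟨s, hs⟩ := hsm (fun s => φ (x s)) (fun l _ => by
    obtain ⟨i, hi⟩ := hx l trivial
    exact ⟨i, fun h => hi (φ.injective (by rw [map_zero]; exact h))⟩) (by
    rw [hev, hxF, map_zero])
  apply hs
  obtain ⟨c, hc⟩ := hS.2 s (hcon _)
  rw [pderiv_map, hev, hc x (fun _ _ => rfl), hxF, mul_zero, map_zero]

/-- the restriction to the fibre over a maximal special set has no special set at the point -/
lemma rst_nonspec {S : Finset κ} {x : Pc n → k} (hS : SpecIn F S x)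
    (hmax : ∀ R, SpecIn F R x → R ⊆ S) (R : Finset {l // l ∉ S}) :
    ¬ SpecIn (rst S x F) R (fun s => x (em S s)) := by
  classical
  intro hR
  have h1 : SpecIn F (S ∪ R.image Subtype.val) x := by
    refine ⟨hS.1.mono Finset.subset_union_left, fun s hs => ?_⟩
    rcases Finset.mem_union.1 hs with h | h
    · obtain ⟨c, hc⟩ := hS.2 s h
      exact ⟨c, fun y hy => hc y fun t ht => hy t (Finset.mem_union_left _ ht)⟩
    · obtain ⟨l, hl, hls⟩ := Finset.mem_image.1 h
      obtain ⟨j, i⟩ := s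
      simp only at hls
      subst hls
      obtain ⟨c, hc⟩ := hR.2 ⟨l, i⟩ hl
      refine ⟨c, fun y hy => ?_⟩
      have hg : glue S x (fun s => y (em S s)) = y := by
        funext t
        by_cases ht : t.1 ∈ S
        · rw [glue_mem _ _ _ _ ht, hy t (Finset.mem_union_left _ ht)]
        · rw [glue_notMem _ _ _ _ ht]
          rfl
      have h2 := hc (fun s => y (em S s)) (fun t ht => hy _ (by
        refine Finset.mem_union_right _ (Finset.mem_image.2 ⟨t.1, ht, rfl⟩)))
      rw [pderiv_rst, eval_rst, eval_rst, hg] at h2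
      exact h2
  obtain ⟨l, hl⟩ := hR.1
  have h2 := hmax _ h1 (Finset.mem_union_right _ (Finset.mem_image.2 ⟨l, hl, rfl⟩))
  exact l.2 h2

/-- `upd` of a glued point in a factor which is not moved -/
lemma upd_glue {S : Finset κ} {l : κ} (hl : l ∈ S) (x : Pc n → k) (Y : Pc (nT S n) → k)
    (u : Fin (n l + 1) → k) : upd (glue S x Y) l u = glue S (upd x l u) Y := by
  funext t
  obtain ⟨j, i⟩ := t
  by_cases hj : j = l
  · subst hj
    rw [upd_same, glue_mem _ _ _ _ hl, upd_same]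
  · rw [upd_ne _ _ _ _ hj]
    by_cases hS : j ∈ S
    · rw [glue_mem _ _ _ _ hS, glue_mem _ _ _ _ hS, upd_ne _ _ _ _ hj]
    · rw [glue_notMem _ _ _ _ hS, glue_notMem _ _ _ _ hS]

lemma bil_comb {V : Type} [AddCommGroup V] [Module k V] (b : V →ₗ[k] V →ₗ[k] k) {a v : V}
    (h1 : b a v = 0) (h2 : b v a = 0) (s t : k) :
    b (s • a + t • v) (s • a + t • v) = s ^ 2 * b a a + t ^ 2 * b v v := by
  simp only [map_add, map_smul, LinearMap.add_apply, LinearMap.smul_apply, smul_eq_mul, h1, h2]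
  ring

/-- the expansion along a special direction -/
lemma expand (hF : MH Set.univ (fun _ => 2) F) {S : Finset κ} {x : Pc n → k}
    (hS : SpecIn F S x) {l : κ} (hl : l ∈ S) (v₀ : Fin (n l + 1) → k) :
    ∃ c : k, ∀ (Y : Pc (nT S n) → k) (s t : k),
      eval (glue S (upd x l (s • (fun i => x ⟨l, i⟩) + t • (v₀ - c • (fun i => x ⟨l, i⟩)))) Y) F =
        s ^ 2 * eval Y (rst S x F) +
        t ^ 2 * eval Y (rst S (upd x l (v₀ - c • (fun i => x ⟨l, i⟩))) F) := by
  classical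
  choose c hc using fun i : Fin (n l + 1) => hS.2 ⟨l, i⟩ hl
  refine ⟨(2 : k)⁻¹ * ∑ i, v₀ i * c i, fun Y s t => ?_⟩
  set a : Fin (n l + 1) → k := fun i => x ⟨l, i⟩ with ha
  set c₀ : k := (2 : k)⁻¹ * ∑ i, v₀ i * c i with hc₀
  have hxa : upd x l a = x := Pool.Agent.Q35.ST.upd_self x l
  have h1 : ∀ u : Fin (n l + 1) → k, eval (glue S (upd x l u) Y) F =
      bil F l (glue S x Y) u u := by
    intro u
    rw [bil_self hF, upd_glue hl]
  have h2 : bil F l (glue S x Y) a v₀ = c₀ * bil F l (glue S x Y) a a := by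
    have h3 := two_bil hF l (glue S x Y) a v₀
    rw [upd_glue hl, hxa] at h3
    have h4 : ∀ i, eval (glue S x Y) (pderiv (⟨l, i⟩ : Pc n) F) =
        c i * eval (glue S x Y) F := fun i =>
      hc i (glue S x Y) fun t ht => glue_mem _ _ _ _ ht
    simp only [h4] at h3
    have h5 : eval (glue S x Y) F = bil F l (glue S x Y) a a := by
      rw [← h1, hxa]
    rw [h5] at h3
    have h6 : ∑ i, v₀ i * (c i * bil F l (glue S x Y) a a) =
        (∑ i, v₀ i * c i) * bil F l (glue S x Y) a a := by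
      rw [Finset.sum_mul]
      exact Finset.sum_congr rfl fun i _ => by ring
    rw [h6] at h3
    rw [hc₀, mul_assoc, ← h3, ← mul_assoc, inv_mul_cancel₀ two_ne_zero, one_mul]
  have h7 : bil F l (glue S x Y) a (v₀ - c₀ • a) = 0 := by
    rw [map_sub, map_smul, h2, smul_eq_mul, sub_self]
  have h8 : bil F l (glue S x Y) (v₀ - c₀ • a) a = 0 := by
    rw [bil_symm]; exact h7
  rw [h1, eval_rst, eval_rst, h1 (v₀ - c₀ • a), ← hxa, h1 a, hxa]
  exact bil_comb _ h7 h8 s t

end step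

end Pool.Agent.Q35.VP
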