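import Pool.Agent.Q35.HB.All

/-!
# One rational point suffices, for smooth hypersurfaces of multidegree (2, ..., 2): statements
(helper35, project VP)
-/

set_option autoImplicit false

namespace Pool.Agent.Q35.VP

open MvPolynomial Pool.Agent.Q35.ST Pool.Agent.Q35.HB AlgebraicGeometry CategoryTheory W560.HP

/-- JOB QP (pencils of quadratic forms) -/
def S_QP : Prop := ∀ (k V : Type) [Field k] [CharZero k] [AddCommGroup V] [Module k V]
  [FiniteDimensional k V], 3 ≤ Module.finrank k V → ∀ bg bq : V →ₗ[k] V →ₗ[k] k,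
  (∀ u v, bg u v = bg v u) → (∀ u v, bq u v = bq v u) → (∀ r, (∀ u, bg r u = 0) → r = 0) →
  ∀ y : V, y ≠ 0 → bg y y = 0 → ∀ P : Finset V, (∀ p ∈ P, ¬ ∃ c : k, y = c • p) →
  ∃ (Y : V) (s t : k), t ≠ 0 ∧ Y ≠ 0 ∧ bg Y Y * s ^ 2 + bq Y Y * t ^ 2 = 0 ∧
    ∀ p ∈ P, ¬ ∃ c : k, Y = c • p

/-- JOB LN (a point with coordinates in a regular local ring gives a point over the residue
field) -/
def S_LN : Prop := ∀ (κ : Type) [Fintype κ] [DecidableEq κ] (n : κ → ℕ) (k : Type) [Field k]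
  (F : MvPolynomial (Pc n) k) (d : κ → ℕ), MH Set.univ d F → ∀ (A : Type) [CommRing A]
  [Algebra k A] [IsRegularLocalRing A] (a : Pc n → A), (∀ l, ∃ i, a ⟨l, i⟩ ≠ 0) →
  aeval a F = 0 → ∃ b : Pc n → IsLocalRing.ResidueField A, (∀ l, ∃ i, b ⟨l, i⟩ ≠ 0) ∧
    aeval b F = 0

/-- JOB LNS (the theorem of Lang and Nishimura), from LN -/
def S_LNS : Prop := ∀ (κ : Type) [Fintype κ] [DecidableEq κ] (n : κ → ℕ) (k : Type) [Field k]
  (F : MvPolynomial (Pc n) k) (d : κ → ℕ), MH Set.univ d F → ∀ (X : Scheme.{0}) [IsIntegral X]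
  (p : X ⟶ Spec (CommRingCat.of k)), BirTo F X p → ∀ s : Spec (CommRingCat.of k) ⟶ X,
  s ≫ p = 𝟙 _ →
  (∀ q : Spec (CommRingCat.of k), IsRegularLocalRing (X.presheaf.stalk (s.base q))) →
  ∃ x : Pc n → k, Nz Set.univ x ∧ eval x F = 0

/-- JOB UC (descent to countable subfields) -/
def S_UC : Prop := ∀ (κ : Type) [Fintype κ] [DecidableEq κ] (n : κ → ℕ) (k : Type) [Field k]
  [CharZero k] (F : MvPolynomial (Pc n) k), MH Set.univ (fun _ => 2) F → (∀ l, 2 ≤ n l) →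
  Smth (map (algebraMap k (AlgebraicClosure k)) F) →
  (∀ (k₀ : Type) [Field k₀] [CharZero k₀] (F₀ : MvPolynomial (Pc n) k₀), Cardinal.mk k₀ ≤
    Cardinal.aleph0 → MH Set.univ (fun _ => 2) F₀ →
    Smth (map (algebraMap k₀ (AlgebraicClosure k₀)) F₀) →
    (∃ x : Pc n → k₀, Nz Set.univ x ∧ eval x F₀ = 0) → ∀ g : MvPolynomial (Pc n) k₀, ¬ F₀ ∣ g →
    ∃ y : Pc n → k₀, eval y F₀ = 0 ∧ eval y g ≠ 0) →
  (∃ x : Pc n → k, Nz Set.univ x ∧ eval x F = 0) → ∀ g : MvPolynomial (Pc n) k, ¬ F ∣ g →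
  ∃ y : Pc n → k, eval y F = 0 ∧ eval y g ≠ 0

end Pool.Agent.Q35.VP
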